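import Pool.Agent.BEN.StmtsB

/-!
# Squad BEN, row SLX: the eigenspace and the solvability in `X`
-/

set_option autoImplicit false

namespace Pool.Agent.BEN.H15

open Set Filter Topology MeasureTheory
open scoped InnerProductSpace ENNReal
open Pool.Agent.BE01 Pool.Agent.BEF

theorem slx (h1 : BtsStmt) (h2 : Pool.Agent.BEF.FrmStmt) (h3 : Pool.Agent.BE01.FreStmt) :
    SlxStmt := by
  intro T _ μ _ s C0 ω X _ _ W hs hX hb hc hω
  have hsym : ∀ h k : Lp ℝ 2 μ, ⟪W.S h, k⟫_ℝ = ⟪h, W.S k⟫_ℝ := by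
    intro h k
    rw [← W.prp.RR h, ← W.prp.RR k, W.prp.R_symm, W.prp.R_symm]
  have hbts := h1 T μ s C0 X W hs hX hb
  obtain ⟨m, ψ, o, e, sp, fr⟩ := h2 (Lp ℝ 2 μ) W.S (ω ^ 2) hc hsym
  have lft : ∀ i, ∃ x, W.e x = ψ i := by
    intro i
    refine hbts (ψ i) 0 (ω ^ 2) ?_
    rw [map_zero, zero_add, e i]
  choose φ hφ using lft
  have hφ' : (fun i => W.e (φ i)) = ψ := funext hφ
  refine ⟨m, φ, ⟨?_, fun i => W.e_inj ?_⟩, ?_, ?_⟩
  · rw [hφ']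
    exact o
  · rw [map_smul, W.e_SX, hφ i, e i]
  · intro u hu
    rw [hφ']
    exact sp u hu
  -- from `H` to `X`
  have up : ∀ (c : ℝ) (F : X) (q : Lp ℝ 2 μ), q - c • W.S q = W.e F → ∃ x : X, x - c • W.SX x = F := by
    intro c F q hq
    obtain ⟨x, hx⟩ := hbts q F c (by rw [← hq]; exact (sub_add_cancel _ _).symm)
    refine ⟨x, W.e_inj ?_⟩
    rw [map_sub, map_smul, W.e_SX, hx, hq]
  intro M hM
  refine ⟨fun F hF => ?_, fun n hn h3n hnM F => ?_⟩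
  · obtain ⟨q, hq⟩ := fr (W.e F) (fun i => by rw [← hφ i]; exact hF i)
    exact up _ F q hq
  · obtain ⟨q, hq⟩ := (h3 (Lp ℝ 2 μ) W.S ((n : ℝ) ^ 2 * ω ^ 2) hc hsym).1 (hM n hn h3n hnM) (W.e F)
    exact up _ F q hq

end Pool.Agent.BEN.H15
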